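import Pool.Agent.Helper65.OH.Goals
import Pool.Agent.Helper11.Ram.MCOR

/-!
# A machine with one head and its machine on numbers
-/

namespace Pool.Agent.Helper53.OH

open Pool.Agent.Helper65.LinSpace Pool.Agent.Helper78.Mpc Pool.Agent.Helper28.Ram Finset
open Pool.Agent.Helper65.OH

variable {D : ℕ} {A : OneHead D} {eA eN eW c : ℕ} {w y : List Bool} {m : Prm}

theorem conf_succ (A : OneHead D) (w y : List Bool) (t : ℕ) :
    A.conf w y (t + 1) = A.step w y (A.conf w y t) := rfl

theorem mv_le (q : List Bool) (k : ℕ) : |mv q k| ≤ 1 := by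
  unfold mv
  split_ifs <;> simp

theorem h_le (A : OneHead D) (w y : List Bool) (t : ℕ) (k : Fin D) :
    |(A.conf w y t).h k| ≤ t := by
  induction t with
  | zero => simp [OneHead.conf]
  | succ t ih =>
    rw [conf_succ]
    show |(A.conf w y t).h k + mv _ k| ≤ _
    refine (abs_add_le _ _).trans ?_
    have := mv_le (A.next (A.inp w y (A.conf w y t).q ((A.conf w y t).M (A.conf w y t).h))) k
    push_cast
    linarith

theorem inBox (A : OneHead D) (w y : List Bool) {κ t : ℕ} (hκ : 0 < κ) (ht : t < 2 ^ (κ - 1)) :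
    InBox κ (A.conf w y t).h := by
  intro k
  have h1 := abs_le.1 (h_le A w y t k)
  have h2 : (t : ℤ) < 2 ^ (κ - 1) := by exact_mod_cast ht
  have h3 : (2 : ℤ) ^ κ = 2 * 2 ^ (κ - 1) := by
    rw [← pow_succ']
    congr 1
    omega
  constructor
  · linarith [h1.1]
  · rw [h3]
    linarith [h1.2]

/-- The functions of `A` are computed correctly. -/
theorem fns (hP : Par A eA eN eW c w y m)
    {cA cN cW : ℕ} (hc : c = cA + cN + cW)
    (hA : ∀ (w : List Bool) (S Λ β B : ℕ), cA * (S + w.length + 2) ≤ Λ →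
      cA + Λ + S + w.length + 1 ≤ β → 2 ^ (S + 1) ≤ B →
      fnN eA S Λ β B (num w) = if (A.addr w).length ≤ S then num (A.addr w) else 0)
    (hN : ∀ (w : List Bool) (S Λ β B : ℕ), cN * (S + w.length + 2) ≤ Λ →
      cN + Λ + S + w.length + 1 ≤ β → 2 ^ (S + 1) ≤ B →
      fnN eN S Λ β B (num w) = if (A.next w).length ≤ S then num (A.next w) else 0)
    (hW : ∀ (w : List Bool) (S Λ β B : ℕ), cW * (S + w.length + 2) ≤ Λ →
      cW + Λ + S + w.length + 1 ≤ β → 2 ^ (S + 1) ≤ B →
      fnN eW S Λ β B (num w) = if (A.write w).length ≤ S then num (A.write w) else 0) :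
    Fns A m := by
  have key : ∀ (f : List Bool → List Bool) (e c' : ℕ), c' ≤ c →
      (∀ (w : List Bool) (S Λ β B : ℕ), c' * (S + w.length + 2) ≤ Λ →
        c' + Λ + S + w.length + 1 ≤ β → 2 ^ (S + 1) ≤ B →
        fnN e S Λ β B (num w) = if (f w).length ≤ S then num (f w) else 0) →
      Good f e m.S m.Λ m.β m.B (3 * m.S + 5) := by
    intro f e c' hc' hf u hu
    refine hf u _ _ _ _ ?_ ?_ hP.h_B
    · refine le_trans ?_ hP.h_Λ
      exact Nat.mul_le_mul hc' (by omega)
    · have := hP.h_β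
      omega
  exact ⟨by rw [hP.h_eA]; exact key _ _ _ (by omega) hA,
    by rw [hP.h_eN]; exact key _ _ _ (by omega) hN,
    by rw [hP.h_eW]; exact key _ _ _ (by omega) hW⟩

/-- The digits of the content `v` of the cube `b` are right for `C`. -/
def Dg (m : Prm) (b v : ℕ) (C : Conf D) : Prop :=
  ∀ z, InBox m.κ z → bz m z = b → dig (2 ^ (m.S + 1)) v (cz m z) = capN m.S (num (C.M z))

theorem accN_zero_of {q : List Bool} (h : q.head? ≠ some true) : accN (num q) = 0 := by
  have h1 := accN_le (num q)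
  have h2 : accN (num q) ≠ 1 := fun h3 => h ((accN_num q).1 h3)
  omega

theorem cz_lt (m : Prm) (hd : 0 < m.d) (z : Fin D → ℤ) : cz m z < m.d ^ D :=
  tab_lt fun _ _ => Nat.mod_lt _ hd

/-- One step in the cube. -/
theorem step_ok (hG : GEO_stmt) (hS : STEP_stmt) (hP : Par A eA eN eW c w y m) (ho : m.o < m.d)
    (hF : Fns A m) {C : Conf D} {q v b : ℕ} (hq : GoodQ m C q) (hb : m.blk q = b)
    (hv : Dg m b v C) (hna : C.q.head? ≠ some true) :
    ((m.ok q v = 0 ∧ m.wq (m.sq q v) = 0 ∧ m.sq q v < 2 ^ m.sg) ∨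
      (m.ok q v ≠ 0 ∧ GoodQ m (A.step w y C) (m.sq q v) ∧ Dg m b (m.sv q v) (A.step w y C) ∧
        ∀ z, InBox m.κ z → bz m z ≠ b → (A.step w y C).M z = C.M z)) ∧
    ((A.addr C.q).length ≤ m.S → (C.M C.h).length ≤ m.S → (A.step w y C).q.length ≤ m.S →
      (A.write (A.inp w y C.q (C.M C.h))).length ≤ m.S → InBox m.κ (A.step w y C).h →
      m.ok q v ≠ 0) := by
  obtain ⟨hblk, hcel, hbox⟩ := hG.blk m C q hP.h_D hq
  have hbz : bz m C.h = b := by rw [← hblk, hb]
  have hvq : m.vq q v = capN m.S (num (C.M C.h)) := by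
    rw [Prm.vq, hcel]
    exact hv C.h hbox hbz
  obtain ⟨h1, h2⟩ := hS A eA eN eW c w y m hP ho hF C q v hq hvq hna
  refine ⟨?_, h2⟩
  rcases h1 with ⟨h3, h4, h5, h6⟩ | ⟨h3, h4, h5, h6⟩
  · exact Or.inl ⟨h3, h4, h6⟩
  · refine Or.inr ⟨h3, h4, ?_, ?_⟩
    · intro z hz hzb
      have hsv : m.sv q v = tab (2 ^ (m.S + 1)) (m.d ^ m.D) (fun c =>
          ifz (eq01 c (m.cel q)) (dig (2 ^ (m.S + 1)) v c) (m.nw q v)) := by
        rw [Prm.sv, hq.wq, accN_zero_of hna, eq01_ne h3]
        rfl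
      have hlt : ∀ c < m.d ^ m.D, ifz (eq01 c (m.cel q)) (dig (2 ^ (m.S + 1)) v c) (m.nw q v) <
          2 ^ (m.S + 1) := by
        intro c _
        rw [ifz_eq01]
        split_ifs
        · exact capN_lt _ _
        · exact dig_lt (by positivity) _ _
      have hcz : cz m z < m.d ^ m.D := by
        rw [hP.h_D]
        exact cz_lt m hP.pos_d z
      rw [hsv, dig_tab hlt hcz, ifz_eq01, hcel]
      by_cases hzh : z = C.h
      · subst hzh
        rw [if_pos rfl, h5]
        have e1 : (A.step w y C).M C.h = A.write (A.inp w y C.q (C.M C.h)) :=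
          Function.update_self _ _ _
        rw [e1, capN_num h6]
      · have hne : cz m z ≠ cz m C.h := fun hcc =>
          hzh (hG.inj m z C.h ho hz hbox (hzb.trans hbz.symm) hcc)
        rw [if_neg hne, hv z hz hzb]
        have e1 : (A.step w y C).M z = C.M z := Function.update_of_ne hzh _ _
        rw [e1]
    · intro z _ hzb
      refine Function.update_of_ne ?_ _ _
      rintro rfl
      exact hzb hbz

/-- A failing state remains a failing state. -/
theorem fail_step (hG : GEO_stmt) {q v : ℕ} (h0 : m.wq q = 0) :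
    m.wq (m.sq q v) = 0 ∧ m.sq q v < 2 ^ m.sg := by
  have had : m.adN q = 0 := by
    rw [Prm.adN, h0, fnN_zero, Helper11.Ram.capN_zero]
  have hok : m.ok q v = 0 := by rw [Prm.ok, had, zero_mul]
  have hsq : m.sq q v = m.mk' 0 (m.cq q) := by
    rw [Prm.sq, h0, Helper11.Ram.accN_zero, hok]
    rfl
  obtain ⟨h1, h2, -⟩ := hG.code m 0 (m.cq q) (by positivity) fun k _ => hG.cq_lt m q k
  rw [hsq]
  exact ⟨h2, h1⟩

theorem acc_step {q v : ℕ} (h : accN (m.wq q) = 1) : m.sq q v = q ∧ m.sv q v = v := by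
  constructor
  · rw [Prm.sq, h, ifz_ne one_ne_zero]
  · rw [Prm.sv, h, ifz_ne (by omega)]

theorem split_lt {s a v : ℕ} (ha : a < 2 ^ s) : (a + 2 ^ s * v) % 2 ^ s = a ∧
    (a + 2 ^ s * v) / 2 ^ s = v := by
  constructor
  · rw [Nat.add_mul_mod_self_left, Nat.mod_eq_of_lt ha]
  · rw [Nat.add_mul_div_left _ _ (by positivity), Nat.div_eq_of_lt ha, zero_add]

/-- The inner configuration. -/
structure In (A : OneHead D) (w y : List Bool) (m : Prm) (b τ z t : ℕ) : Prop where
  le : τ ≤ t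
  good : GoodQ m (A.conf w y t) (z % 2 ^ m.sg)
  dg : Dg m b (z / 2 ^ m.sg) (A.conf w y t)
  out : ∀ x, InBox m.κ x → bz m x ≠ b → (A.conf w y t).M x = (A.conf w y τ).M x

theorem loc_eq (b z : ℕ) : m.loc b z = if m.blk (z % 2 ^ m.sg) = b then
    m.sq (z % 2 ^ m.sg) (z / 2 ^ m.sg) + 2 ^ m.sg * m.sv (z % 2 ^ m.sg) (z / 2 ^ m.sg) else z := by
  rw [Prm.loc, ifz_eq01]

/-- The inner loop, failing states. -/
theorem loop_fail (hG : GEO_stmt) {b z₀ : ℕ}
    (h0 : m.wq (z₀ % 2 ^ m.sg) = 0) (n : ℕ) :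
    m.wq (nrec z₀ (fun _ z => m.loc b z) n % 2 ^ m.sg) = 0 := by
  induction n with
  | zero => exact h0
  | succ n ih =>
    rw [nrec_succ, loc_eq]
    split_ifs
    · obtain ⟨h1, h2⟩ := fail_step hG (v := nrec z₀ (fun _ z => m.loc b z) n / 2 ^ m.sg) ih
      rw [(split_lt h2).1]
      exact h1
    · exact ih

/-- The inner loop. -/
theorem loop (hG : GEO_stmt) (hS : STEP_stmt) (hP : Par A eA eN eW c w y m) (ho : m.o < m.d)
    (hF : Fns A m) {b τ z₀ : ℕ} (h0 : In A w y m b τ z₀ τ) (n : ℕ) :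
    m.wq (nrec z₀ (fun _ z => m.loc b z) n % 2 ^ m.sg) = 0 ∨
      ∃ t, In A w y m b τ (nrec z₀ (fun _ z => m.loc b z) n) t := by
  induction n with
  | zero => exact Or.inr ⟨τ, h0⟩
  | succ n ih =>
    rw [nrec_succ, loc_eq]
    set z := nrec z₀ (fun _ z => m.loc b z) n with hz
    split_ifs with hb
    · rcases ih with h1 | ⟨t, h1⟩
      · obtain ⟨h2, h3⟩ := fail_step hG (v := z / 2 ^ m.sg) h1
        left
        rw [(split_lt h3).1]
        exact h2
      · by_cases hacc : (A.conf w y t).q.head? = some true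
        · have h2 : accN (m.wq (z % 2 ^ m.sg)) = 1 := by
            rw [h1.good.wq]
            exact (accN_num _).2 hacc
          obtain ⟨h3, h4⟩ := acc_step (v := z / 2 ^ m.sg) h2
          right
          refine ⟨t, ?_⟩
          rw [h3, h4, Nat.mod_add_div]
          exact h1
        · rcases (step_ok hG hS hP ho hF h1.good hb h1.dg hacc).1 with ⟨-, h2, h3⟩ | ⟨-, h2, h3, h4⟩
          · left
            rw [(split_lt h3).1]
            exact h2
          · right
            refine ⟨t + 1, by have := h1.le; omega, ?_, ?_, ?_⟩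
            · rw [(split_lt h2.lt).1]
              exact h2
            · rw [(split_lt h2.lt).2]
              exact h3
            · intro x hx hxb
              rw [conf_succ, h4 x hx hxb]
              exact h1.out x hx hxb
    · exact ih

/-- The inner loop without failures. -/
theorem loop2 (hG : GEO_stmt) (hS : STEP_stmt) (hP : Par A eA eN eW c w y m) (ho : m.o < m.d)
    (hF : Fns A m) {r r' : ℕ} (hfit : A.Fits w y r m.S) (hr' : r' ≤ r)
    (hacc : A.AcceptsAt w y r') (hmin : ∀ s < r', ¬A.AcceptsAt w y s)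
    (hr : r < 2 ^ (m.κ - 1)) {b τ z₀ : ℕ} (h0 : In A w y m b τ z₀ τ) (hτ : τ ≤ r') (n : ℕ) :
    ∃ t ≤ r', In A w y m b τ (nrec z₀ (fun _ z => m.loc b z) n) t ∧
      (∀ i, τ ≤ i → i < t → bz m (A.conf w y i).h = b) ∧
      (t = τ + n ∨ t = r' ∨ bz m (A.conf w y t).h ≠ b) := by
  induction n with
  | zero => exact ⟨τ, hτ, h0, fun i h1 h2 => by omega, Or.inl rfl⟩
  | succ n ih =>
    obtain ⟨t, ht, h1, h2, h3⟩ := ih
    rw [nrec_succ, loc_eq]
    set z := nrec z₀ (fun _ z => m.loc b z) n with hz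
    obtain ⟨hblk, -, -⟩ := hG.blk m _ _ hP.h_D h1.good
    split_ifs with hb
    · rcases Nat.lt_or_ge t r' with htr | htr
      · have hna := hmin t htr
        obtain ⟨g1, g2⟩ := step_ok hG hS hP ho hF h1.good hb h1.dg hna
        obtain ⟨f1, f2, f3⟩ := hfit t (by omega)
        obtain ⟨f4, -, f6⟩ := hfit (t + 1) (by omega)
        have f7 := f6 (A.conf w y t).h
        have e1 : (A.conf w y (t + 1)).M (A.conf w y t).h =
            A.write (A.inp w y (A.conf w y t).q ((A.conf w y t).M (A.conf w y t).h)) :=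
          Function.update_self _ _ _
        rw [e1] at f7
        have hok := g2 f2 (f3 _) f4 f7 (inBox A w y (t := t + 1) hP.pos_κ (by omega))
        rcases g1 with ⟨k1, -⟩ | ⟨-, k2, k3, k4⟩
        · exact absurd k1 hok
        · refine ⟨t + 1, htr, ⟨by have := h1.le; omega, ?_, ?_, ?_⟩, ?_, ?_⟩
          · rw [(split_lt k2.lt).1]
            exact k2
          · rw [(split_lt k2.lt).2]
            exact k3
          · intro x hx hxb
            rw [conf_succ, k4 x hx hxb]
            exact h1.out x hx hxb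
          · intro i hi1 hi2
            rcases Nat.lt_or_ge i t with h | h
            · exact h2 i hi1 h
            · have : i = t := by omega
              subst this
              rw [← hblk, hb]
          · left
            rcases h3 with h3 | h3 | h3
            · omega
            · omega
            · exact absurd (hblk.symm.trans hb) h3
      · have htr' : t = r' := by omega
        subst htr'
        have h4 : accN (m.wq (z % 2 ^ m.sg)) = 1 := by
          rw [h1.good.wq]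
          exact (accN_num _).2 hacc
        obtain ⟨h5, h6⟩ := acc_step (v := z / 2 ^ m.sg) h4
        refine ⟨t, le_rfl, ?_, h2, Or.inr (Or.inl rfl)⟩
        rw [h5, h6, Nat.mod_add_div]
        exact h1
    · exact ⟨t, ht, h1, h2, Or.inr (Or.inr fun h => hb (hblk.trans h))⟩

/-! ### The machine on numbers -/

/-- The outer configuration. -/
structure Out (A : OneHead D) (w y : List Bool) (m : Prm) (s : ℕ × (ℕ → ℕ)) (τ : ℕ) : Prop where
  good : GoodQ m (A.conf w y τ) s.1
  mem : ∀ z, InBox m.κ z → dig (2 ^ (m.S + 1)) (s.2 (bz m z)) (cz m z) =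
    capN m.S (num ((A.conf w y τ).M z))

theorem bz_lt (hP : Par A eA eN eW c w y m) (ho : m.o < m.d) {z : Fin D → ℤ}
    (hz : InBox m.κ z) : bz m z < 2 ^ m.σ := by
  have h1 : bz m z < (2 ^ m.κ) ^ D := by
    refine tab_lt fun k hk => ?_
    have h2 : co m.κ z k < 2 ^ m.κ := by
      rw [co, dif_pos hk]
      obtain ⟨h3, h4⟩ := hz ⟨k, hk⟩
      have h5 : ((z ⟨k, hk⟩ + 2 ^ (m.κ - 1)).toNat : ℤ) < ((2 ^ m.κ : ℕ) : ℤ) := by
        rw [Int.toNat_of_nonneg h3]
        push_cast
        exact h4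
      exact_mod_cast h5
    rw [Nat.div_lt_iff_lt_mul hP.pos_d]
    calc co m.κ z k + m.o < co m.κ z k + m.d := by omega
      _ ≤ co m.κ z k * m.d + m.d := by
        have := Nat.le_mul_of_pos_right (co m.κ z k) hP.pos_d
        omega
      _ = (co m.κ z k + 1) * m.d := by ring
      _ ≤ 2 ^ m.κ * m.d := Nat.mul_le_mul_right _ h2
  have h3 : (2 ^ m.κ) ^ D ≤ 2 ^ m.σ := by
    rw [← pow_mul, hP.h_σ, Prm.sg, hP.h_D]
    exact Nat.pow_le_pow_right (by norm_num) (by omega)
  exact lt_of_lt_of_le h1 h3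

theorem dig_mod_a (hP : Par A eA eN eW c w y m) (V : ℕ) {i : ℕ} (hi : i < m.d ^ D) :
    dig (2 ^ (m.S + 1)) (V % 2 ^ m.a) i = dig (2 ^ (m.S + 1)) V i := by
  rw [← dig_mod_pow (q := 2 ^ (m.S + 1)) (V % 2 ^ m.a) (m.d ^ D) hi,
    ← dig_mod_pow (q := 2 ^ (m.S + 1)) V (m.d ^ D) hi]
  congr 1
  refine Nat.mod_mod_of_dvd V ?_
  rw [← pow_mul]
  exact pow_dvd_pow 2 hP.h_a

theorem pconf_succ (m : Prm) (T : ℕ) : m.conf (T + 1) =
    (m.fN (m.conf T).1 ((m.conf T).2 (m.fA (m.conf T).1)),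
      Function.update (m.conf T).2 (m.fA (m.conf T).1)
        (m.fW (m.conf T).1 ((m.conf T).2 (m.fA (m.conf T).1)))) := rfl

theorem start (hG : GEO_stmt) (hP : Par A eA eN eW c w y m) :
    (m.conf 0).1 < 2 ^ m.sg ∧ (m.wq (m.conf 0).1 = 0 ∨ Out A w y m (m.conf 0) 0) ∧
      (A.start.length ≤ m.S → Out A w y m (m.conf 0) 0) := by
  have hκ : 2 ^ (m.κ - 1) < 2 ^ m.κ :=
    Nat.pow_lt_pow_right (by norm_num) (by have := hP.pos_κ; omega)
  obtain ⟨h1, h2, h3⟩ := hG.code m (capN m.S m.st) (fun _ => 2 ^ (m.κ - 1)) (capN_lt _ _)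
    fun _ _ => hκ
  have hq : (m.conf 0).1 = m.mk' (capN m.S m.st) (fun _ => 2 ^ (m.κ - 1)) := by
    show m.mk' (capN m.S m.st) (fun _ => 2 ^ (m.κ - 1)) % 2 ^ m.σ = _
    rw [hP.h_σ, Nat.mod_eq_of_lt h1]
  have hlt : (m.conf 0).1 < 2 ^ m.sg := by rw [hq]; exact h1
  have hout : A.start.length ≤ m.S → Out A w y m (m.conf 0) 0 := by
    intro hlen
    refine ⟨⟨hlt, ?_, hlen, ?_⟩, ?_⟩
    · rw [hq, h2, hP.h_st, capN_num hlen]
      rfl
    · intro k
      rw [hq, h3 k (by rw [hP.h_D]; exact k.2)]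
      show ((2 ^ (m.κ - 1) : ℕ) : ℤ) = 0 + 2 ^ (m.κ - 1)
      push_cast
      ring
    · intro z _
      show dig (2 ^ (m.S + 1)) (tab (2 ^ (m.S + 1)) (m.d ^ m.D) (fun _ => 1) % 2 ^ m.a) (cz m z) =
        capN m.S (num [])
      have h4 := cz_lt m hP.pos_d z
      rw [dig_mod_a hP _ h4, dig_tab (fun _ _ => Nat.one_lt_two_pow (by omega))
        (by rw [hP.h_D]; exact h4), capN_num (by simp)]
      rfl
  refine ⟨hlt, ?_, hout⟩
  by_cases hs : A.start.length ≤ m.S
  · exact Or.inr (hout hs)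
  · left
    rw [hq, h2, hP.h_st]
    by_contra h4
    exact hs (Helper11.Ram.capN_num_le h4)

/-- From the outer to the inner configuration. -/
theorem out_in (hG : GEO_stmt) (hP : Par A eA eN eW c w y m) (ho : m.o < m.d)
    {s : ℕ × (ℕ → ℕ)} {τ : ℕ} (h : Out A w y m s τ) :
    m.fA s.1 = bz m (A.conf w y τ).h ∧ m.blk (s.1 % 2 ^ m.sg) = bz m (A.conf w y τ).h ∧
      In A w y m (bz m (A.conf w y τ).h) τ
        (s.1 % 2 ^ m.sg + 2 ^ m.sg * s.2 (bz m (A.conf w y τ).h)) τ := by
  obtain ⟨hblk, -, hbox⟩ := hG.blk m _ _ hP.h_D h.good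
  have hmod : s.1 % 2 ^ m.sg = s.1 := Nat.mod_eq_of_lt h.good.lt
  refine ⟨?_, by rw [hmod, hblk], le_rfl, ?_, ?_, fun _ _ _ => rfl⟩
  · rw [Prm.fA, hblk, Nat.mod_eq_of_lt (bz_lt hP ho hbox)]
  · rw [hmod, (split_lt h.good.lt).1]
    exact h.good
  · rw [hmod, (split_lt h.good.lt).2]
    intro z hz hzb
    have := h.mem z hz
    rwa [hzb] at this

/-- From the inner to the outer configuration. -/
theorem in_out (hP : Par A eA eN eW c w y m) {M : ℕ → ℕ} {b τ z t : ℕ}
    (hM : ∀ x, InBox m.κ x → dig (2 ^ (m.S + 1)) (M (bz m x)) (cz m x) =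
      capN m.S (num ((A.conf w y τ).M x))) (h : In A w y m b τ z t) :
    Out A w y m (z % 2 ^ m.sg % 2 ^ m.σ, Function.update M b (z / 2 ^ m.sg % 2 ^ m.a)) t := by
  constructor
  · show GoodQ m (A.conf w y t) (z % 2 ^ m.sg % 2 ^ m.σ)
    rw [hP.h_σ, Nat.mod_mod]
    exact h.good
  · intro x hx
    show dig (2 ^ (m.S + 1)) (Function.update M b (z / 2 ^ m.sg % 2 ^ m.a) (bz m x)) (cz m x) = _
    by_cases hb : bz m x = b
    · rw [hb, Function.update_self, dig_mod_a hP _ (cz_lt m hP.pos_d x)]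
      exact h.dg x hx hb
    · rw [Function.update_of_ne hb, hM x hx, h.out x hx hb]

theorem step_eq (hG : GEO_stmt) (hP : Par A eA eN eW c w y m) (ho : m.o < m.d) {T τ : ℕ}
    (h : Out A w y m (m.conf T) τ) : m.conf (T + 1) =
      (nrec ((m.conf T).1 % 2 ^ m.sg + 2 ^ m.sg * (m.conf T).2 (bz m (A.conf w y τ).h))
        (fun _ z => m.loc (bz m (A.conf w y τ).h) z) m.Tc % 2 ^ m.sg % 2 ^ m.σ,
      Function.update (m.conf T).2 (bz m (A.conf w y τ).h)
        (nrec ((m.conf T).1 % 2 ^ m.sg + 2 ^ m.sg * (m.conf T).2 (bz m (A.conf w y τ).h))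
        (fun _ z => m.loc (bz m (A.conf w y τ).h) z) m.Tc / 2 ^ m.sg % 2 ^ m.a)) := by
  obtain ⟨h1, h2, -⟩ := out_in hG hP ho h
  rw [pconf_succ, h1]
  simp only [Prm.fN, Prm.fW, Prm.run, h2]

/-- The first invariant. -/
theorem inv1 (hG : GEO_stmt) (hS : STEP_stmt) (hP : Par A eA eN eW c w y m) (ho : m.o < m.d)
    (hF : Fns A m) (T : ℕ) : m.wq (m.conf T).1 = 0 ∨ ∃ τ, Out A w y m (m.conf T) τ := by
  induction T with
  | zero =>
    rcases (start hG hP).2.1 with h | h
    · exact Or.inl h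
    · exact Or.inr ⟨0, h⟩
  | succ T ih =>
    rcases ih with h0 | ⟨τ, h⟩
    · left
      rw [pconf_succ]
      show m.wq (m.run _ _ % 2 ^ m.sg % 2 ^ m.σ) = 0
      rw [hP.h_σ, Nat.mod_mod, Prm.run]
      refine loop_fail hG ?_ _
      rw [(split_lt (Nat.mod_lt _ (by positivity))).1, Prm.wq]
      rw [Prm.wq] at h0
      have h1 : 2 ^ (m.S + 1) ∣ 2 ^ m.sg := pow_dvd_pow 2 (by rw [Prm.sg]; omega)
      rw [Nat.mod_mod_of_dvd _ h1]
      exact h0
    · rw [step_eq hG hP ho h]
      rcases loop hG hS hP ho hF (out_in hG hP ho h).2.2 m.Tc with h1 | ⟨t, h1⟩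
      · left
        show m.wq (_ % 2 ^ m.sg % 2 ^ m.σ) = 0
        rw [hP.h_σ, Nat.mod_mod]
        exact h1
      · exact Or.inr ⟨t, in_out hP h.mem h1⟩

/-- The second invariant. -/
theorem inv2 (hG : GEO_stmt) (hS : STEP_stmt) (hP : Par A eA eN eW c w y m) (ho : m.o < m.d)
    (hF : Fns A m) {r r' : ℕ} (hfit : A.Fits w y r m.S) (hr' : r' ≤ r)
    (hacc : A.AcceptsAt w y r') (hmin : ∀ s < r', ¬A.AcceptsAt w y s)
    (hr : r < 2 ^ (m.κ - 1)) (hTc : r ≤ m.Tc) (T : ℕ) :
    ∃ τ ≤ r', Out A w y m (m.conf T) τ ∧ (τ = r' ∨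
      T ≤ ((range τ).filter fun t => ∃ k < D, (co m.κ (A.conf w y t).h k + m.o) / m.d ≠
        (co m.κ (A.conf w y (t + 1)).h k + m.o) / m.d).card) := by
  induction T with
  | zero =>
    exact ⟨0, Nat.zero_le _, (start hG hP).2.2 (hfit 0 (Nat.zero_le _)).1, Or.inr (Nat.zero_le _)⟩
  | succ T ih =>
    obtain ⟨τ, hτ, h, hT⟩ := ih
    obtain ⟨t, ht, h1, h2, h3⟩ := loop2 hG hS hP ho hF hfit hr' hacc hmin hr
      (out_in hG hP ho h).2.2 hτ m.Tc
    refine ⟨t, ht, ?_, ?_⟩
    · rw [step_eq hG hP ho h]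
      exact in_out hP h.mem h1
    · have hle := h1.le
      rcases h3 with h3 | h3 | h3
      · left
        omega
      · exact Or.inl h3
      · by_cases htr : t = r'
        · exact Or.inl htr
        · right
          have htτ : t ≠ τ := by
            rintro rfl
            exact h3 rfl
          obtain ⟨s, rfl⟩ : ∃ s, t = s + 1 := ⟨t - 1, by omega⟩
          have h4 : bz m (A.conf w y s).h = bz m (A.conf w y τ).h := h2 s (by omega) (by omega)
          have hT' : T ≤ ((range τ).filter fun t => ∃ k < D,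
              (co m.κ (A.conf w y t).h k + m.o) / m.d ≠
              (co m.κ (A.conf w y (t + 1)).h k + m.o) / m.d).card := by
            rcases hT with hT | hT
            · omega
            · exact hT
          have hcr : ∃ k < D, (co m.κ (A.conf w y s).h k + m.o) / m.d ≠
              (co m.κ (A.conf w y (s + 1)).h k + m.o) / m.d := by
            refine (hG.cross m _ _ ho (inBox A w y hP.pos_κ (by omega))
              (inBox A w y hP.pos_κ (by omega))).1 ?_
            rw [h4]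
            exact fun h5 => h3 h5.symm
          have hsub : insert s ((range τ).filter fun t => ∃ k < D,
              (co m.κ (A.conf w y t).h k + m.o) / m.d ≠
              (co m.κ (A.conf w y (t + 1)).h k + m.o) / m.d) ⊆
              (range (s + 1)).filter fun t => ∃ k < D,
              (co m.κ (A.conf w y t).h k + m.o) / m.d ≠
              (co m.κ (A.conf w y (t + 1)).h k + m.o) / m.d := by
            intro x hx
            rw [mem_insert, mem_filter, mem_range] at hx
            rw [mem_filter, mem_range]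
            rcases hx with rfl | ⟨hx1, hx2⟩
            · exact ⟨by omega, hcr⟩
            · exact ⟨by omega, hx2⟩
          have hnot : s ∉ (range τ).filter fun t => ∃ k < D,
              (co m.κ (A.conf w y t).h k + m.o) / m.d ≠
              (co m.κ (A.conf w y (t + 1)).h k + m.o) / m.d := by
            rw [mem_filter, mem_range]
            omega
          have h6 := card_le_card hsub
          rw [card_insert_of_notMem hnot] at h6
          omega

/-- MCOR. -/
theorem MCOR (hG : GEO_stmt) (hS : STEP_stmt) : Pool.Agent.Helper65.OH.MCOR_stmt := by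
  intro D A
  obtain ⟨eA, cA, hA⟩ := fnN_spec A.addr_lin
  obtain ⟨eN, cN, hN⟩ := fnN_spec A.next_lin
  obtain ⟨eW, cW, hW⟩ := fnN_spec A.write_lin
  refine ⟨eA, eN, eW, cA + cN + cW, fun w y m hP ho => ?_⟩
  have hF : Fns A m := fns hP rfl hA hN hW
  constructor
  · intro T hT
    rcases inv1 hG hS hP ho hF T with h | ⟨τ, h⟩
    · rw [h, Helper11.Ram.accN_zero] at hT
      omega
    · rw [h.good.wq] at hT
      exact ⟨τ, (accN_num _).1 hT⟩
  · intro r T hfit hacc hTc hr hcard
    classical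
    have hex : ∃ t, A.AcceptsAt w y t := ⟨r, hacc⟩
    have hle : Nat.find hex ≤ r := Nat.find_min' hex hacc
    obtain ⟨τ, hτ, h, h3⟩ := inv2 hG hS hP ho hF hfit hle (Nat.find_spec hex)
      (fun s hs => Nat.find_min hex hs) hr hTc T
    rcases h3 with h3 | h3
    · rw [h.good.wq, h3]
      exact (accN_num _).2 (Nat.find_spec hex)
    · exfalso
      have h4 := card_le_card (filter_subset_filter (fun t => ∃ k < D,
        (co m.κ (A.conf w y t).h k + m.o) / m.d ≠
        (co m.κ (A.conf w y (t + 1)).h k + m.o) / m.d)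
        (range_subset_range.2 (hτ.trans hle)))
      omega

end Pool.Agent.Helper53.OH
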